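import Pool.Agent.K3h44.ER.FurtT
import Pool.Agent.K3h85.ER.RG1
import Pool.Agent.K3h85.ER.QG

/-!
# Furtwängler's theorem and Sophie Germain's theorem over quadratic fields

Let `K` be a quadratic field of discriminant `d`, `p ≥ 7` a prime dividing `n`, and let
`x ^ n + y ^ n = z ^ n` with nonzero `x, y, z` in `K` be in the first case: at the primes above `p`
the valuations of `x, y, z` are equal. Let `r ≠ p` be a prime with `r ^ (p - 1)` not congruent to
`1` modulo `p ^ 2`.

1. None of `x, y, z` is divisible (after removal of common divisors) by all primes above `r`. So for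
   the primes `r` which do not split in `K` the valuations of `x, y, z` above `r` are equal.
2. If `r` ramifies in `K`, then `a ^ p + b ^ p = 1` with nonzero residues `a, b` modulo `r`; and if
   `r = 3`, then `- 3 d` is a nonzero square modulo `p`.
3. If `p` does not divide `r - 1` and one of these holds: `p` does not divide both Bernoulli numbers
   with index `p - 3` and `p - 5`; the index of irregularity `i` of `p` satisfies
   `2 (i + 1) (i + 2) + 3 ≤ p`; `- 15 d` is not a nonzero square modulo `p`; then there is a prime of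
   norm `> 2` above `r` at which `x, y, z` have equal valuations. For `r = 2` this is impossible if
   two is not inert in `K`.
4. If `2 p + 1` or `4 p + 1` is a prime, it does not ramify in `K`. So if it is a prime which
   ramifies in `K`, the first case of Fermat's Last Theorem holds over `K` for the exponents
   divisible by `p`.

Proof. Let `X ^ p + Y ^ p + Z ^ p = 0` in the first case, `A, B, G` the norms of `X, Y, Z` and `t, s`
the traces of `X` times the conjugates of `Y`, `Z`. The norm `A + t ζ + B ζ ^ 2` of `X + ζ Y` to the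
field of `p`-th roots of unity is a rational number times the `p`-th power of an ideal. The relation
of Stickelberger for the Jacobi sums makes a product of its conjugates a root of unity times a `p`-th
power. The root of unity is computed modulo the square of `1 - ζ` and, if the polynomial
`A + t T + B T ^ 2` is palindromic up to a power of `T` modulo `r`, modulo `r`. If `X` is divisible by
all primes above `r`, this is so for both pairs, with values `c T ^ 2`, and gives `G + A = B` and
`B + A = G`, so `A = 0` modulo `p`. If `X` and `Y` are divisible by the two primes above `r`, one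
finds `A : B : G = 2 : 2 : 3`; then `t ^ 2 - 4 A B`, a square times `d`, is `- 15` times a square, and
the logarithmic derivative of `2 - 3 e ^ u + 3 e ^ (2 u)` has nonzero coefficients with the indices
`2` and `4`, so that `p` divides both Bernoulli numbers.
-/

set_option autoImplicit false

namespace Pool.Agent.Results.MP_50a406_nt.FurtwaenglerQuadratic

open NumberField IsDedekindDomain

/-- The valuations of `x, y, z` are equal at all prime ideals above `p`. -/
def NoneDivisible {K : Type} [Field K] [NumberField K] (p : ℕ) (x y z : K) : Prop :=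
  ∀ v : HeightOneSpectrum (𝓞 K), ((p : ℕ) : 𝓞 K) ∈ v.asIdeal →
    v.valuation K x = v.valuation K y ∧ v.valuation K y = v.valuation K z

/-- After removal of common divisors, `x` is divisible by all prime ideals above `r`, and `y` and `z`
by none of them. -/
def OnlyFirstDivisible {K : Type} [Field K] [NumberField K] (r : ℕ) (x y z : K) : Prop :=
  ∀ v : HeightOneSpectrum (𝓞 K), ((r : ℕ) : 𝓞 K) ∈ v.asIdeal →
    v.valuation K x < v.valuation K y ∧ v.valuation K y = v.valuation K z

/-- `r` is the square of an ideal (for a prime `r` and a quadratic field: `r` ramifies). -/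
def Ramifies (K : Type) [Field K] [NumberField K] (r : ℕ) : Prop :=
  ∃ P : Ideal (𝓞 K), P ^ 2 = Ideal.span {((r : ℕ) : 𝓞 K)}

/-- The even numbers `k` with `2 ≤ k ≤ p - 3` for which `p` divides the numerator of the Bernoulli
number with index `k`. Their number is the index of irregularity of `p`. -/
def Irregular (p : ℕ) : Finset ℕ :=
  (Finset.range p).filter fun k => Even k ∧ 2 ≤ k ∧ k + 3 ≤ p ∧ (p : ℤ) ∣ (bernoulli k).num

theorem result (K : Type) [Field K] [NumberField K] (hK : Module.finrank ℚ K = 2)
    (p n : ℕ) (hp : p.Prime) (h7 : 7 ≤ p) (hn : p ∣ n)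
    (x y z : K) (h : x ^ n + y ^ n = z ^ n) (hx : x ≠ 0) (hy : y ≠ 0) (hz : z ≠ 0)
    (hv : NoneDivisible p x y z) :
    (∀ r : ℕ, r.Prime → r ≠ p → ¬ p ^ 2 ∣ r ^ (p - 1) - 1 →
      (¬ OnlyFirstDivisible r x y z ∧ ¬ OnlyFirstDivisible r y z x ∧
        ¬ OnlyFirstDivisible r z x y) ∧
      (Ramifies K r → (∃ a b : ZMod r, a ≠ 0 ∧ b ≠ 0 ∧ a ^ p + b ^ p = 1) ∧
        (r = 3 → ∃ s : ZMod p, s ≠ 0 ∧ s ^ 2 = -3 * (NumberField.discr K : ZMod p))) ∧
      (¬ p ∣ r - 1 →
        (¬ (p : ℤ) ∣ (bernoulli (p - 3)).num ∨ ¬ (p : ℤ) ∣ (bernoulli (p - 5)).num ∨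
          2 * (((Irregular p).card + 1) * ((Irregular p).card + 2)) + 3 ≤ p ∨
          ¬ ∃ s : ZMod p, s ≠ 0 ∧ s ^ 2 = -15 * (NumberField.discr K : ZMod p)) →
        ∃ v : HeightOneSpectrum (𝓞 K), ((r : ℕ) : 𝓞 K) ∈ v.asIdeal ∧
          2 < Ideal.absNorm v.asIdeal ∧
          v.valuation K x = v.valuation K y ∧ v.valuation K y = v.valuation K z)) ∧
    ((2 * p + 1).Prime → ¬ Ramifies K (2 * p + 1)) ∧
    ((4 * p + 1).Prime → ¬ Ramifies K (4 * p + 1)) := by
  have hirr : ∀ j : ℕ, ¬ (p : ℤ) ∣ (bernoulli j).num → j ∉ Y546.WQ.irr p := by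
    intro j hj hk
    unfold Y546.WQ.irr at hk
    exact hj (Finset.mem_filter.1 hk).2.2.2.2
  have top := fun (r : ℕ) (hr : r.Prime) (hrp : r ≠ p) (hW : ¬ p ^ 2 ∣ r ^ (p - 1) - 1) =>
    Pool.Agent.K3h44.ER.topF Pool.Agent.K3h85.ER.RG1.main Pool.Agent.K3h85.ER.QG.main hp h7 hK hn
      hx hy hz h hv hr hrp hW
  refine ⟨fun r hr hrp hW => ?_, fun hq hR => ?_, fun hq hR => ?_⟩
  · obtain ⟨⟨v1, h1, h1', -⟩, ⟨v2, h2, h2', -⟩, ⟨v3, h3, h3', -⟩, h4, h5⟩ := top r hr hrp hW
    refine ⟨⟨fun hD => ?_, fun hD => ?_, fun hD => ?_⟩, h4, fun hpr hc => h5 hpr ?_⟩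
    · exact absurd (hD v1 h1).1 (not_lt.2 h1')
    · exact absurd (hD v2 h2).1 (not_lt.2 h2')
    · exact absurd (hD v3 h3).1 (not_lt.2 h3')
    · rcases hc with hc | hc | hc | hc
      · exact Or.inl (hirr _ hc)
      · exact Or.inr (Or.inl (hirr _ hc))
      · exact Or.inr (Or.inr (Or.inl hc))
      · exact Or.inr (Or.inr (Or.inr hc))
  · obtain ⟨a, b, ha, hb, hab⟩ := ((top _ hq (by omega) (Pool.Agent.K3h44.ER.nW hp 2
      (fun hd => by have := Nat.le_of_dvd (by norm_num) hd; omega))).2.2.2.1 hR).1
    rcases Pool.Agent.K3h44.ER.germ2 hp h7 hq a b hab with h0 | h0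
    · exact ha h0
    · exact hb h0
  · obtain ⟨a, b, ha, hb, hab⟩ := ((top _ hq (by omega) (Pool.Agent.K3h44.ER.nW hp 4
      (fun hd => by have := Nat.le_of_dvd (by norm_num) hd; omega))).2.2.2.1 hR).1
    rcases Pool.Agent.K3h44.ER.germ4 hp h7 hq a b hab with h0 | h0
    · exact ha h0
    · exact hb h0

end Pool.Agent.Results.MP_50a406_nt.FurtwaenglerQuadratic
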