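import Pool.Agent.K3h44.RQ.Main

/-!
# The first case of Fermat's Last Theorem over real quadratic fields: units and class numbers

Let `K` be a real quadratic field and `p ≥ 7` a prime which does not divide the class number of `K`,
and suppose that some unit `u` of `K` is not a Wieferich unit: `u ^ (p ^ 2 - 1)` is not congruent to
`1` modulo `p ^ 2`. Then the first case of Fermat's Last Theorem holds over `K` for all exponents
divisible by `p`, provided that `2 ^ (p - 1)` is not `1` modulo `p ^ 2`, or `p` does not divide the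
Bernoulli number with index `p - 3`, or the index of irregularity `i` of `p` satisfies
`(i + 1) (i + 2) + 3 ≤ p`. There are no conditions on the primes `2`, `3` in `K`, on squares modulo
`p`, or on the class number of the field of `p`-th roots of unity over `K`.

Proof. Let `X ^ p + Y ^ p + Z ^ p = 0` in the first case, `D` the discriminant of `K`, `χ` its
character, `m = p D` and `F` the field of `m`-th roots of unity, which contains `K` and `ζ`.
1. `x = (X + ζ Y) / (X + Y) = 1 - (1 - ζ) w` with `w = Y / (X + Y)` is the `p`-th power of an ideal of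
`F`. Stickelberger's theorem for the Jacobi sums `J (ψ, ψ ^ a)` of characters `ψ` of order `m` shows
that the product of the conjugates `σ_t⁻¹ x` over the set `H` of the `t` with `{t / m} + {a t / m} > 1`
is a root of unity times a `p`-th power. Modulo the square of a prime above `p` this gives the
congruence `N₁ w + N₂ w' = i`, where `w'` is the conjugate of `w`, `i` an integer and `N₁`, `N₂` the
sums of the inverses of the `t` in `H` with `χ (t) = 1` and `χ (t) = - 1`. With the conjugate
congruence, `(N₁ - N₂) (w - w') = 0` modulo `p`.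
2. If `N₁ = N₂` modulo `p` for all `a`, then the sum `T` of the `χ (t) [t / p] / t` over the `t < m` is
`0` modulo `p`. A congruence modulo `p ^ 2` of the type of Leopoldt's formula for the `p`-adic
`L`-function at `1` gives `η ^ (p ^ 2) = η` modulo `p ^ 2` for the cyclotomic unit `η` of `K`, the
product of the `(1 - exp (2 π i u / D)) ^ χ (u)`. By Dirichlet's class number formula the units
generated by `- 1` and `η` have index `2 h`, so that `u ^ (p ^ 2 - 1) = 1` modulo `p ^ 2` for all units
`u`. So under our assumptions `w = w'` modulo `p`: the residues `X : Y : Z` modulo `p` are rational.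
3. So the norm polynomial `A + t T + B T ^ 2` of `X + T Y` is a square modulo `p`, and
`t ^ 2 = 4 A B` modulo `p`. The relations over the field of `p`-th roots of unity for the norms then
lead to a contradiction: modulo the primes above two they give `A : B : G = 2 : 2 : 3` or `1 : 1 : 1`
(`G` the norm of `Z`), and then `15 A ^ 2 = 0` or `3 A ^ 2 = 0`; and in the other cases the linear
polynomial `1 + s T` satisfies all the relations, so that `s = 1` by the theorems of
Cauchy-Genocchi-Kummer and Eichler, `X = Y = Z` modulo `p`, and `3 = 0`.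
-/

set_option autoImplicit false

namespace Pool.Agent.Results.MP_50a406_nt.RealQuadraticFirstCase

open NumberField IsDedekindDomain

/-- The even numbers `k` with `2 ≤ k ≤ p - 3` for which `p` divides the numerator of the Bernoulli
number with index `k`. Their number is the index of irregularity of `p`. -/
def Irregular (p : ℕ) : Finset ℕ :=
  (Finset.range p).filter fun k => Even k ∧ 2 ≤ k ∧ k + 3 ≤ p ∧ (p : ℤ) ∣ (bernoulli k).num

theorem result (K : Type) [Field K] [NumberField K] (hK : Module.finrank ℚ K = 2) (φ : K →+* ℝ)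
    (p n : ℕ) (hp : p.Prime) (h7 : 7 ≤ p) (hh : ¬ p ∣ classNumber K)
    (hu : ∃ u : (𝓞 K)ˣ, ¬ (p : 𝓞 K) ^ 2 ∣ (u : 𝓞 K) ^ (p ^ 2 - 1) - 1)
    (hW : ¬ p ^ 2 ∣ 2 ^ (p - 1) - 1 ∨ ¬ (p : ℤ) ∣ (bernoulli (p - 3)).num ∨
      ((Irregular p).card + 1) * ((Irregular p).card + 2) + 3 ≤ p)
    (hn : p ∣ n) (x y z : K) (h : x ^ n + y ^ n = z ^ n) (hx : x ≠ 0) (hy : y ≠ 0) (hz : z ≠ 0) :
    ∃ v : HeightOneSpectrum (𝓞 K), ((p : ℕ) : 𝓞 K) ∈ v.asIdeal ∧
      ¬ (v.valuation K x = v.valuation K y ∧ v.valuation K y = v.valuation K z) := by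
  by_contra hcon
  push Not at hcon
  have hirr : ∀ j : ℕ, ¬ (p : ℤ) ∣ (bernoulli j).num → j ∉ Y546.WQ.irr p := by
    intro j hj hk
    unfold Y546.WQ.irr at hk
    exact hj (Finset.mem_filter.1 hk).2.2.2.2
  have hcond : ¬ p ^ 2 ∣ 2 ^ (p - 1) - 1 ∨ p - 3 ∉ Y546.WQ.irr p ∨
      ((Y546.WQ.irr p).card + 1) * ((Y546.WQ.irr p).card + 2) + 3 ≤ p := by
    rcases hW with h1 | h1 | h1
    · exact Or.inl h1
    · exact Or.inr (Or.inl (hirr _ h1))
    · exact Or.inr (Or.inr h1)
  obtain ⟨d, h1, hd, s, hs⟩ := Pool.Agent.K3h44.RQ.exists_sqrt hK φ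
  exact Pool.Agent.K3h44.RQ.firstOf hp h7 hK (fun σ hN hT =>
    Pool.Agent.K3h44.RQ.divUnit Pool.Agent.K3h60.RQ.t_CYX Pool.Agent.K3h92.RQ.t_UNR hK h1 hd s hs hp
      (by omega) hh hu σ hN hT) hcond hn hx hy hz h fun v hv => hcon v hv

end Pool.Agent.Results.MP_50a406_nt.RealQuadraticFirstCase
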