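import Pool.Agent.K3h44.RQ.Top4
import Pool.Agent.K3h97.RQ.CJ
import Pool.Agent.K3h99.RQ.LINQ
import Pool.Agent.K3h93.RQ.LINE

/-!
# The criteria of Cauchy, Genocchi and Kummer and of Eichler over real quadratic fields

Let `K = ℚ(√d)` be a real quadratic field with character `χ`, and `p ≥ 7` a prime. Suppose that `p`
is ramified in `K`, or does not divide the generalized Bernoulli number `B_(p-3, χ)`, or that the
number `i'` of the even `k`, `2 ≤ k ≤ p - 1`, for which `p` divides `B_(k, χ)` satisfies
`2 (i' + 1) (i' + 2) + 3 ≤ p`. Suppose also that `p` does not divide the Bernoulli number `B_(p-3)`,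
or that the index of irregularity `i` of `p` satisfies `(i + 1) (i + 2) + 3 ≤ p`, or that
`2 ^ (p - 1)` is not `1` modulo `p ^ 2`. Then the first case of Fermat's Last Theorem holds over `K`
for all exponents divisible by `p`. There are no conditions on the class number and the units of
`K`, on the primes `2`, `3` in `K` or on squares modulo `p`.

Proof. Let `X ^ p + Y ^ p + Z ^ p = 0` in the first case, `D` the discriminant of `K`, `m = p D` and `F`
the field of `m`-th roots of unity, which contains `K` and `ζ`.
1. `(X + ζ Y) / (X + Y)` is the `p`-th power of an ideal of `F`. Stickelberger's theorem for the Jacobi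
sums `J (ψ, ψ ^ a)` of characters `ψ` of order `m` shows that the product of its conjugates under the
`σ_t⁻¹`, for the `t` in the set `H` with `{t / m} + {a t / m} > 1`, is `ζ ^ i` times a `p`-th power. Let
`X_t`, `Y_t` be `X`, `Y` or their conjugates `X'`, `Y'`, as `χ (t) = 1` or `χ (t) = - 1`, and `r_t` the
inverse of `t` modulo `m`. Comparison with the conjugates under the inertia group of `p` gives that
the product of the polynomials `X_t + Y_t T ^ (r_t)` over `H` is a constant times `T ^ i` modulo
`(T - 1) ^ (p - 1)` and a prime of `K` above `p`. With `T = exp u` we get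
`N₁ l + N₂ l' = 0` for the coefficients `l`, `l'` of `u ^ j`, `2 ≤ j ≤ p - 2`, in the logarithms of
`X + Y exp u` and `X' + Y' exp u`, where `N₁`, `N₂` are the sums of the `t ^ (- j)` over the `t` in `H`
with `χ (t) = 1` and `χ (t) = - 1`. With the conjugate relation, `(N₁ - N₂) (l - l') = 0`.
2. Let `p` be unramified in `K`. If `N₁ = N₂` modulo `p` for all `a`, then the sum of the
`χ (t) [t / p] t ^ (- j)` over the `t < m` is `0` modulo `p`, and `p` divides `B_(p-j, χ)`. So `l = l'` for the odd `j` for which `p` does not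
divide `B_(p-j, χ)` (also for `j = 1`). For `j = 3` this says that `X : Y` is rational modulo `p` or
`2 (A - B) ^ 2 = (A + B) G` modulo `p`, where `A`, `B`, `G` are the norms of `X`, `Y`, `Z`; with the two
other relations of this kind, `X : Y : Z` is rational modulo `p`. If `X : Y` is not rational and `t` is
the trace of `X Y'`, the even coefficients of `T / (A + t T + B T ^ 2)` at `T = exp u` are `0` up to `i'`
exceptions, and the argument of Eichler gives that the even part of this rational function is `0`,
so that `A + B = 0` and `t = 0`, against `A + t + B = G ≠ 0`.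
3. As `X : Y` is rational (this is clear if `p` is ramified), the norm polynomial
`A + t T + B T ^ 2` is a square modulo `p`, and the relations over the field of `p`-th roots of unity
for the norms lead to a contradiction as over the rational numbers, by the theorems of Kummer,
Eichler or Wieferich.
-/

set_option autoImplicit false

namespace Pool.Agent.Results.MP_50a406_nt.RealQuadraticIndex

open NumberField IsDedekindDomain

/-- The discriminant of `ℚ(√d)`, for squarefree `d > 1`. -/
def disc (d : ℕ) : ℕ := if d % 4 = 1 then d else 4 * d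

/-- The quadratic character of `ℚ(√d)` at numbers `t` prime to the discriminant, for squarefree
`d > 1`: the Jacobi symbol `(t / d)` if `d` is `1` modulo `4`, and `(d / t)` otherwise. -/
def chi (d t : ℕ) : ℤ := if d % 4 = 1 then jacobiSym (t : ℤ) d else jacobiSym (d : ℤ) t

/-- The generalized Bernoulli number `B_(n, χ)` of the quadratic character `χ` of `ℚ(√d)`: with the
discriminant `D`, it is `D ^ (n - 1)` times the sum of the `χ (a) B_n (a / D)` over the `a` between
`0` and `D` prime to `D`, where `B_n` is the Bernoulli polynomial. -/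
noncomputable def bernoulliChi (d n : ℕ) : ℚ :=
  (disc d : ℚ) ^ (n - 1) * ∑ a ∈ (Finset.range (disc d)).filter (fun a => a.Coprime (disc d)),
    (chi d a : ℚ) * (Polynomial.bernoulli n).eval ((a : ℚ) / (disc d : ℚ))

/-- The even numbers `k` with `2 ≤ k ≤ p - 3` for which `p` divides the numerator of the Bernoulli
number with index `k`. Their number is the index of irregularity of `p`. -/
def Irregular (p : ℕ) : Finset ℕ :=
  (Finset.range p).filter fun k => Even k ∧ 2 ≤ k ∧ k + 3 ≤ p ∧ (p : ℤ) ∣ (bernoulli k).num

/-- The even numbers `k` with `2 ≤ k ≤ p - 1` for which `p` divides the numerator of the generalized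
Bernoulli number with index `k` of the character of `ℚ(√d)`. -/
noncomputable def IrregularChi (d p : ℕ) : Finset ℕ :=
  (Finset.range p).filter fun k => Even k ∧ 2 ≤ k ∧ (p : ℤ) ∣ (bernoulliChi d k).num

theorem result (K : Type) [Field K] [NumberField K] (hK : Module.finrank ℚ K = 2)
    (d : ℕ) (h1 : 1 < d) (hd : Squarefree d) (hs : ∃ s : K, s ^ 2 = (d : K))
    (p n : ℕ) (hp : p.Prime) (h7 : 7 ≤ p)
    (hB : p ∣ d ∨ ¬ (p : ℤ) ∣ (bernoulliChi d (p - 3)).num ∨
      2 * (((IrregularChi d p).card + 1) * ((IrregularChi d p).card + 2)) + 3 ≤ p)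
    (hW : ¬ p ^ 2 ∣ 2 ^ (p - 1) - 1 ∨ ¬ (p : ℤ) ∣ (bernoulli (p - 3)).num ∨
      ((Irregular p).card + 1) * ((Irregular p).card + 2) + 3 ≤ p)
    (hn : p ∣ n) (x y z : K) (h : x ^ n + y ^ n = z ^ n) (hx : x ≠ 0) (hy : y ≠ 0) (hz : z ≠ 0) :
    ∃ v : HeightOneSpectrum (𝓞 K), ((p : ℕ) : 𝓞 K) ∈ v.asIdeal ∧
      ¬ (v.valuation K x = v.valuation K y ∧ v.valuation K y = v.valuation K z) := by
  by_contra hcon
  push Not at hcon
  have hirr : ∀ j : ℕ, ¬ (p : ℤ) ∣ (bernoulli j).num → j ∉ Y546.WQ.irr p := by
    intro j hj hk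
    unfold Y546.WQ.irr at hk
    exact hj (Finset.mem_filter.1 hk).2.2.2.2
  have hcond : ¬ p ^ 2 ∣ 2 ^ (p - 1) - 1 ∨ p - 3 ∉ Y546.WQ.irr p ∨
      ((Y546.WQ.irr p).card + 1) * ((Y546.WQ.irr p).card + 2) + 3 ≤ p := by
    rcases hW with h1 | h1 | h1
    · exact Or.inl h1
    · exact Or.inr (Or.inl (hirr _ h1))
    · exact Or.inr (Or.inr h1)
  obtain ⟨s, hs⟩ := hs
  exact Pool.Agent.K3h44.RQ.firstOf hp h7 hK (fun σ hN hT => by
    rcases hB with hB | hB | hB
    · exact Pool.Agent.K3h44.RQ.divRam σ hN hT h1 hd s hs hp hB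
    · exact Pool.Agent.K3h44.RQ.divBern hK h1 hd s hs hp h7 hB σ hN hT
    · exact Pool.Agent.K3h44.RQ.divEich2 Pool.Agent.K3h97.RQ.t_CJ Pool.Agent.K3h99.RQ.t_LINQ
        Pool.Agent.K3h93.RQ.t_LINE hK h1 hd s hs hp h7 hB σ hN hT)
    hcond hn hx hy hz h fun v hv => hcon v hv

end Pool.Agent.Results.MP_50a406_nt.RealQuadraticIndex
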