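import Pool.Agent.K3h44.FQ.Main

/-!
# Fermat's equation over quadratic fields: exponents divisible by `3 p`, for regular primes `p`

Let `p ≥ 5` be a regular prime and `K` a quadratic field. If `n` is divisible by `3 p`, then
`x ^ n + y ^ n = z ^ n` has only solutions with `x y z = 0` in `K`.

Proof. Let `n = 3 p` and let `(α, β)` be a point of the Fermat curve of degree `3 p` with
coordinates in `K`. The line through the point `(a, b) = (α ^ p, β ^ p)` of the Fermat cubic and its
conjugate is defined over the rational numbers, so its third point of intersection with the cubic is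
rational and one of the three trivial points (Euler). After a permutation of the coordinates,
`a + b = t` is rational, so `b` is the conjugate of `a`, `β` is the conjugate of `α` and
`3 t s ^ p = t ^ 3 - 1`, where `s = α β`. Write `t = u / v` in lowest terms. The factorization of
`u ^ 3 - v ^ 3` and Fermat's Last Theorem for `p` over the rational numbers (Kummer) leave the case
where `u = a ^ p`, `3 v ^ 2 = B ^ p`, `u - v = r ^ p` and `u ^ 2 + u v + v ^ 2 = q ^ p`.

The main point is the following generalization of Kummer's second case: if `g ^ p + h ^ p = 1`, where
`g + h` and `g h` are rational, then `p` does not divide the denominator of `g h`. (The numbers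
`(g + ζ h) (g + h / ζ)` are in the field of `p`-th roots of unity and they are `p`-th powers of ideals
up to a common factor; the quotients of two of them, and Kummer's lemma, give a solution of
`x ^ p + 1 = ε z ^ p` in this field where `z` is divisible by the prime above `p`.) It applies to
`g = α ^ 3`, and to a pair in the field of cube roots of unity, which is made from `u - ω v`
if `p` divides `r`. In the remaining case the first case of Kummer's theorem, applied to
`a ^ p - r ^ p = v` and to `q ^ p - r ^ (2 p) = 3 u v`, gives the congruences `a ≡ - r` and
`q ≡ - r ^ 2` modulo `p`, which contradict `u ^ 2 + u v + v ^ 2 = q ^ p`.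
-/

set_option autoImplicit false

namespace Pool.Agent.Results.MP_50a406_nt.ThreeTimesRegular

open NumberField

theorem result (K : Type) [Field K] [NumberField K] (hK : Module.finrank ℚ K = 2)
    (p n : ℕ) (hp : p.Prime) (h5 : 5 ≤ p)
    (hreg : ¬ p ∣ classNumber (CyclotomicField p ℚ))
    (hn : 3 * p ∣ n) (x y z : K) (h : x ^ n + y ^ n = z ^ n) : x * y * z = 0 := by
  obtain ⟨m, rfl⟩ := hn
  rcases Nat.eq_zero_or_pos m with rfl | hm
  · simp at h
  have h1 : (x ^ m) ^ (3 * p) + (y ^ m) ^ (3 * p) = (z ^ m) ^ (3 * p) := by
    rw [← pow_mul, ← pow_mul, ← pow_mul, mul_comm m, h]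
  have h2 := Pool.Agent.K3h44.FQ.main K hK hp h5 hreg h1
  rw [← mul_pow, ← mul_pow] at h2
  exact (pow_eq_zero_iff hm.ne').1 h2

end Pool.Agent.Results.MP_50a406_nt.ThreeTimesRegular
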